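import Mathlib

/-! Project MS, Part I (helper70): sums over the proper prime powers, and Mertens for the
von Mangoldt function. -/

set_option autoImplicit false

open Finset

namespace Pool.Agent.Lib.MP_6bc78b_nt.MS.P1.H70

/-- Abbreviation for the von Mangoldt function. -/
noncomputable def Lm (n : ℕ) : ℝ := ArithmeticFunction.vonMangoldt n

lemma Lm_nonneg (n : ℕ) : 0 ≤ Lm n := ArithmeticFunction.vonMangoldt_nonneg

lemma Lm_le_log (n : ℕ) : Lm n ≤ Real.log n := ArithmeticFunction.vonMangoldt_le_log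

lemma Lm_prime {p : ℕ} (hp : p.Prime) : Lm p = Real.log p :=
  ArithmeticFunction.vonMangoldt_apply_prime hp

/-- Bound for one proper prime power. -/
lemma ppow_term (e : ℕ) {p m : ℕ} (hp : 2 ≤ p) (hm : 2 ≤ m) :
    Real.log p * ((m : ℝ) * Real.log p) ^ e / (p : ℝ) ^ m ≤
      (4 * (2 * ((e : ℝ) + 1)) ^ (e + 1)) *
        ((1 / (p : ℝ) ^ (3 / 2 : ℝ)) * ((m : ℝ) ^ e * (1 / 2 : ℝ) ^ m)) := by
  have hp2 : (2 : ℝ) ≤ p := by exact_mod_cast hp
  have hp0 : (0 : ℝ) < p := by linarith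
  have he : (0 : ℝ) < (e : ℝ) + 1 := by positivity
  have hlog : 0 ≤ Real.log p := Real.log_nonneg (by linarith)
  have h1 : Real.log p ≤ (2 * ((e : ℝ) + 1)) * (p : ℝ) ^ (1 / (2 * ((e : ℝ) + 1))) := by
    have := Real.log_le_rpow_div (x := (p : ℝ)) (ε := 1 / (2 * ((e : ℝ) + 1))) hp0.le
      (by positivity)
    calc Real.log p ≤ (p : ℝ) ^ (1 / (2 * ((e : ℝ) + 1))) / (1 / (2 * ((e : ℝ) + 1))) := this
      _ = _ := by field_simp
  have h2 : Real.log p ^ (e + 1) ≤ (2 * ((e : ℝ) + 1)) ^ (e + 1) * (p : ℝ) ^ (1 / 2 : ℝ) := by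
    calc Real.log p ^ (e + 1)
        ≤ ((2 * ((e : ℝ) + 1)) * (p : ℝ) ^ (1 / (2 * ((e : ℝ) + 1)))) ^ (e + 1) :=
          pow_le_pow_left₀ hlog h1 _
      _ = (2 * ((e : ℝ) + 1)) ^ (e + 1) * ((p : ℝ) ^ (1 / (2 * ((e : ℝ) + 1)))) ^ (e + 1) :=
          mul_pow _ _ _
      _ = _ := by
          congr 1
          rw [← Real.rpow_natCast, ← Real.rpow_mul hp0.le]
          congr 1
          push_cast
          field_simp
  have h3 : (p : ℝ) ^ 2 * (2 : ℝ) ^ (m - 2) ≤ (p : ℝ) ^ m := by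
    calc (p : ℝ) ^ 2 * (2 : ℝ) ^ (m - 2) ≤ (p : ℝ) ^ 2 * (p : ℝ) ^ (m - 2) :=
          mul_le_mul_of_nonneg_left (pow_le_pow_left₀ (by norm_num) hp2 _) (by positivity)
      _ = (p : ℝ) ^ m := by rw [← pow_add]; congr 1; omega
  have h4 : (2 : ℝ) ^ (m - 2) = 2 ^ m / 4 := by
    rw [eq_div_iff (by norm_num)]
    calc (2 : ℝ) ^ (m - 2) * 4 = 2 ^ (m - 2) * 2 ^ 2 := by norm_num
      _ = 2 ^ m := by rw [← pow_add]; congr 1; omega
  have h5 : (p : ℝ) ^ 2 = (p : ℝ) ^ (3 / 2 : ℝ) * (p : ℝ) ^ (1 / 2 : ℝ) := by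
    rw [← Real.rpow_add hp0, ← Real.rpow_natCast]
    norm_num
  have hq : 0 < (p : ℝ) ^ (3 / 2 : ℝ) := Real.rpow_pos_of_pos hp0 _
  have hr : 0 < (p : ℝ) ^ (1 / 2 : ℝ) := Real.rpow_pos_of_pos hp0 _
  have h2m : (0 : ℝ) < 2 ^ m := by positivity
  have hm0 : (0 : ℝ) ≤ (m : ℝ) ^ e := by positivity
  calc Real.log p * ((m : ℝ) * Real.log p) ^ e / (p : ℝ) ^ m
      = (m : ℝ) ^ e * Real.log p ^ (e + 1) / (p : ℝ) ^ m := by rw [mul_pow, pow_succ]; ring
    _ ≤ (m : ℝ) ^ e * ((2 * ((e : ℝ) + 1)) ^ (e + 1) * (p : ℝ) ^ (1 / 2 : ℝ)) / (p : ℝ) ^ m :=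
        div_le_div_of_nonneg_right (mul_le_mul_of_nonneg_left h2 hm0) (by positivity)
    _ ≤ (m : ℝ) ^ e * ((2 * ((e : ℝ) + 1)) ^ (e + 1) * (p : ℝ) ^ (1 / 2 : ℝ)) /
          ((p : ℝ) ^ 2 * (2 : ℝ) ^ (m - 2)) :=
        div_le_div_of_nonneg_left (by positivity) (by positivity) h3
    _ = _ := by
        rw [h4, h5]
        have e6 : (1 / 2 : ℝ) ^ m = 1 / 2 ^ m := by rw [div_pow, one_pow]
        rw [e6]
        field_simp

/-- The sum over the proper prime powers is bounded. -/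
theorem ppow_sum (e : ℕ) : ∃ C : ℝ, 0 ≤ C ∧ ∀ N : ℕ,
    ∑ k ∈ (Icc 1 N).filter (fun k => ¬ k.Prime), Lm k * Real.log k ^ e / k ≤ C := by
  have hs1 : Summable (fun p : ℕ => 1 / (p : ℝ) ^ (3 / 2 : ℝ)) :=
    Real.summable_one_div_nat_rpow.mpr (by norm_num)
  have hs2 : Summable (fun m : ℕ => (m : ℝ) ^ e * (1 / 2 : ℝ) ^ m) :=
    summable_pow_mul_geometric_of_norm_lt_one e (by norm_num)
  set K : ℝ := 4 * (2 * ((e : ℝ) + 1)) ^ (e + 1) with hK
  have hK0 : 0 ≤ K := by positivity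
  refine ⟨K * ((∑' p : ℕ, 1 / (p : ℝ) ^ (3 / 2 : ℝ)) * ∑' m : ℕ, (m : ℝ) ^ e * (1 / 2 : ℝ) ^ m),
    mul_nonneg hK0 (mul_nonneg (tsum_nonneg fun p => by positivity)
      (tsum_nonneg fun m => by positivity)), fun N => ?_⟩
  -- restrict to the prime powers
  set S : Finset ℕ := (Icc 1 N).filter (fun k => ¬ k.Prime ∧ IsPrimePow k) with hS
  have hsub : S ⊆ (Icc 1 N).filter (fun k => ¬ k.Prime) := by
    intro k hk
    rw [hS, mem_filter] at hk
    rw [mem_filter]
    exact ⟨hk.1, hk.2.1⟩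
  rw [← Finset.sum_subset hsub (fun k hk hk' => by
    rw [mem_filter] at hk
    have : ¬ IsPrimePow k := fun h => hk' (by rw [hS, mem_filter]; exact ⟨hk.1, hk.2, h⟩)
    have h0 : Lm k = 0 := by
      by_contra h
      exact this (ArithmeticFunction.vonMangoldt_ne_zero_iff.mp h)
    rw [h0]; simp)]
  set phi : ℕ → ℕ × ℕ := fun k => (k.minFac, k.factorization k.minFac) with hphi
  have hpow : ∀ k ∈ S, k.minFac ^ k.factorization k.minFac = k := fun k hk => by
    rw [hS, mem_filter] at hk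
    exact hk.2.2.minFac_pow_factorization_eq
  have hinj : Set.InjOn phi S := by
    intro a ha b hb hab
    rw [hphi] at hab
    simp only [Prod.mk.injEq] at hab
    calc a = a.minFac ^ a.factorization a.minFac := (hpow a ha).symm
      _ = b.minFac ^ b.factorization b.minFac := by rw [hab.2, hab.1]
      _ = b := hpow b hb
  set G : ℕ × ℕ → ℝ := fun x => Real.log x.1 * ((x.2 : ℝ) * Real.log x.1) ^ e / (x.1 : ℝ) ^ x.2
    with hG
  have hFG : ∀ k ∈ S, Lm k * Real.log k ^ e / k = G (phi k) := by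
    intro k hk
    have hp := hpow k hk
    rw [hS, mem_filter] at hk
    have hL : Lm k = Real.log k.minFac := by
      unfold Lm
      rw [ArithmeticFunction.vonMangoldt_apply, if_pos hk.2.2]
    rw [hG, hphi]
    dsimp only
    have hk' : (k : ℝ) = (k.minFac : ℝ) ^ k.factorization k.minFac := by
      exact_mod_cast hp.symm
    have hlog : Real.log k = (k.factorization k.minFac : ℝ) * Real.log k.minFac := by
      conv_lhs => rw [hk']
      rw [Real.log_pow]
    rw [hL, hlog]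
    congr 1
  rw [Finset.sum_congr rfl hFG, ← Finset.sum_image (f := G) hinj]
  have hrange : S.image phi ⊆ (Icc 2 N) ×ˢ (Icc 2 N) := by
    intro x hx
    rw [mem_image] at hx
    obtain ⟨k, hk, rfl⟩ := hx
    have hp := hpow k hk
    rw [hS, mem_filter, mem_Icc] at hk
    obtain ⟨⟨hk1, hkN⟩, hkp, hkpp⟩ := hk
    have hk2 : 2 ≤ k := hkpp.two_le
    have hmf : k.minFac.Prime := Nat.minFac_prime (by omega)
    have hm2 : 2 ≤ k.factorization k.minFac := by
      by_contra h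
      have h1 : k.factorization k.minFac = 0 ∨ k.factorization k.minFac = 1 := by omega
      rcases h1 with h1 | h1
      · rw [h1, pow_zero] at hp
        omega
      · rw [h1, pow_one] at hp
        exact hkp (hp ▸ hmf)
    have hmN : k.factorization k.minFac ≤ N := by
      have h1 : k.factorization k.minFac < 2 ^ k.factorization k.minFac := Nat.lt_two_pow_self
      have h2 : 2 ^ k.factorization k.minFac ≤ k.minFac ^ k.factorization k.minFac :=
        Nat.pow_le_pow_left hmf.two_le _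
      rw [hp] at h2
      omega
    have hpN : k.minFac ≤ N := (Nat.minFac_le (by omega)).trans hkN
    rw [mem_product, mem_Icc, mem_Icc]
    exact ⟨⟨hmf.two_le, hpN⟩, ⟨hm2, hmN⟩⟩
  have hG0 : ∀ x ∈ (Icc 2 N) ×ˢ (Icc 2 N), 0 ≤ G x := by
    intro x hx
    rw [mem_product, mem_Icc, mem_Icc] at hx
    have : (1 : ℝ) ≤ (x.1 : ℝ) := by exact_mod_cast (by omega : 1 ≤ x.1)
    have hl : 0 ≤ Real.log x.1 := Real.log_nonneg this
    rw [hG]
    dsimp only
    positivity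
  calc ∑ x ∈ S.image phi, G x ≤ ∑ x ∈ (Icc 2 N) ×ˢ (Icc 2 N), G x :=
        Finset.sum_le_sum_of_subset_of_nonneg hrange fun x hx _ => hG0 x hx
    _ ≤ ∑ x ∈ (Icc 2 N) ×ˢ (Icc 2 N), K * ((1 / (x.1 : ℝ) ^ (3 / 2 : ℝ)) *
          ((x.2 : ℝ) ^ e * (1 / 2 : ℝ) ^ x.2)) := by
        refine Finset.sum_le_sum fun x hx => ?_
        rw [mem_product, mem_Icc, mem_Icc] at hx
        exact ppow_term e hx.1.1 hx.2.1
    _ = K * ((∑ p ∈ Icc 2 N, 1 / (p : ℝ) ^ (3 / 2 : ℝ)) *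
          ∑ m ∈ Icc 2 N, (m : ℝ) ^ e * (1 / 2 : ℝ) ^ m) := by
        rw [← Finset.mul_sum, Finset.sum_mul_sum, Finset.sum_product]
    _ ≤ _ := by
        refine mul_le_mul_of_nonneg_left (mul_le_mul
          (hs1.sum_le_tsum _ fun p _ => by positivity)
          (hs2.sum_le_tsum _ fun m _ => by positivity)
          (Finset.sum_nonneg fun m _ => by positivity)
          (tsum_nonneg fun p => by positivity)) hK0

/-- `log n!` as a sum over the von Mangoldt function -/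
theorem log_factorial_eq (X : ℕ) :
    Real.log X.factorial = ∑ n ∈ Ioc 0 X, Lm n * ((X / n : ℕ) : ℝ) := by
  have h1 := ArithmeticFunction.sum_Ioc_mul_zeta_eq_sum (R := ℝ)
    ArithmeticFunction.vonMangoldt X
  change _ = ∑ n ∈ Ioc 0 X, ArithmeticFunction.vonMangoldt n * ((X / n : ℕ) : ℝ)
  rw [← h1]
  have h2 : (ArithmeticFunction.vonMangoldt * ((ArithmeticFunction.zeta : ArithmeticFunction ℕ) :
    ArithmeticFunction ℝ)) = ArithmeticFunction.log := ArithmeticFunction.vonMangoldt_mul_zeta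
  rw [h2]
  clear h1
  induction X with
  | zero => simp
  | succ X ih =>
    rw [Nat.factorial_succ, Nat.cast_mul, Real.log_mul (by positivity)
      (by exact_mod_cast Nat.factorial_ne_zero X), ih, ← Finset.insert_Ioc_right_eq_Ioc_add_one
      (Nat.zero_le X), Finset.sum_insert (by simp)]
    simp [ArithmeticFunction.log_apply]

/-- Mertens' theorem for the von Mangoldt function. -/
theorem mertens : ∃ C : ℝ, 0 ≤ C ∧ ∀ N : ℕ, 1 ≤ N →
    |∑ n ∈ Icc 1 N, Lm n / n - Real.log N| ≤ C := by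
  have h4 : 0 ≤ Real.log 4 := Real.log_nonneg (by norm_num)
  refine ⟨Real.log 4 + 4, by linarith, fun N hN => ?_⟩
  have hN0 : (0 : ℝ) < N := by exact_mod_cast hN
  have hI : Ioc 0 N = Icc 1 N := by ext; simp [Nat.succ_le_iff]
  have hfac : Real.log (N.factorial : ℝ) ≤ N * Real.log N := by
    rw [← Real.log_pow]
    apply Real.log_le_log (by exact_mod_cast N.factorial_pos)
    exact_mod_cast Nat.factorial_le_pow N
  have hfac2 : (N : ℝ) * Real.log N - N ≤ Real.log (N.factorial : ℝ) := by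
    have h3 := Real.pow_div_factorial_le_exp (x := (N : ℝ)) hN0.le N
    have hf : (0 : ℝ) < (N.factorial : ℝ) := by exact_mod_cast N.factorial_pos
    have h5 := Real.log_le_log (by positivity) h3
    rw [Real.log_exp, Real.log_div (by positivity) hf.ne', Real.log_pow] at h5
    linarith
  have hpsi : ∑ n ∈ Icc 1 N, Lm n ≤ (Real.log 4 + 4) * N := by
    have h := Chebyshev.psi_le_const_mul_self hN0.le
    rw [Chebyshev.psi_eq_sum_Icc, Nat.floor_natCast] at h
    refine le_trans (Finset.sum_le_sum_of_subset_of_nonneg ?_ fun i _ _ => Lm_nonneg i) h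
    intro k hk
    rw [mem_Icc] at hk ⊢
    omega
  rw [log_factorial_eq, hI] at hfac hfac2
  have hup : (N : ℝ) * ∑ n ∈ Icc 1 N, Lm n / n - ∑ n ∈ Icc 1 N, Lm n ≤
      ∑ n ∈ Icc 1 N, Lm n * ((N / n : ℕ) : ℝ) := by
    rw [Finset.mul_sum, ← Finset.sum_sub_distrib]
    refine Finset.sum_le_sum fun n hn => ?_
    rw [mem_Icc] at hn
    have hn0 : (0 : ℝ) < n := by exact_mod_cast hn.1
    have h5 : (N : ℝ) / n < ((N / n : ℕ) : ℝ) + 1 := by
      have := Nat.lt_floor_add_one ((N : ℝ) / n)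
      rwa [Nat.floor_div_eq_div] at this
    have h6 := mul_le_mul_of_nonneg_left h5.le (Lm_nonneg n)
    calc (N : ℝ) * (Lm n / n) - Lm n = Lm n * (N / n) - Lm n := by ring
      _ ≤ _ := by linarith
  have hlo : ∑ n ∈ Icc 1 N, Lm n * ((N / n : ℕ) : ℝ) ≤ (N : ℝ) * ∑ n ∈ Icc 1 N, Lm n / n := by
    rw [Finset.mul_sum]
    refine Finset.sum_le_sum fun n hn => ?_
    have h5 : ((N / n : ℕ) : ℝ) ≤ (N : ℝ) / n := Nat.cast_div_le
    have h6 := mul_le_mul_of_nonneg_left h5 (Lm_nonneg n)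
    calc Lm n * ((N / n : ℕ) : ℝ) ≤ Lm n * (N / n) := h6
      _ = _ := by ring
  rw [abs_le]
  constructor
  · have h7 : (N : ℝ) * (Real.log N - 1) ≤ N * ∑ n ∈ Icc 1 N, Lm n / n := by linarith
    have := le_of_mul_le_mul_left h7 hN0
    linarith
  · have h7 : (N : ℝ) * ∑ n ∈ Icc 1 N, Lm n / n ≤ N * (Real.log N + (Real.log 4 + 4)) := by
      linarith
    have := le_of_mul_le_mul_left h7 hN0
    linarith

end Pool.Agent.Lib.MP_6bc78b_nt.MS.P1.H70
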